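import Pool.Agent.Results.MP_ec4e4b_nt.AllTwistsX15
import Pool.Agent.Helper723_X15.Cont

/-!
# The rank conjecture of Birch and Swinnerton-Dyer over 100 percent of the quadratic extensions `k(√D)` of a
# multiquadratic field for one of the first few members of a fixed sequence of non-CM curves

`E_M : y² = x³ - 12987 M² x - 263466 M³` is the quadratic twist by `M` of `X_0(15)`, an elliptic curve without
complex multiplication, and `Cls` is the set of ALL the squarefree numbers `D ≡ 1` or `49` modulo `60`, with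
no condition on the prime factors: a set of positive density `5 / (16 π²)`. Let `k = ℚ(√d_1, …, √d_n)` be a
field of degree `2ⁿ` (`n ≥ 0`), the `d_i` being in the class up to squares. The pair `(M, d)` is good if all the
`2ⁿ` numbers `M ∏_{i ∈ T} d_i` are up to squares numbers `D ≠ 1` of the class with `E_D(ℚ)` finite and
`Ш(E_D/ℚ)[2] = 0`. This is so for the proportion `c ^ 2ⁿ` of the `M` of the class, `c = ∏_{i ≥ 1} (1 - 2^{-i}) =
0.2887...`.

Theorem. Let `M_0, M_1, …` be a fixed sequence such that all the `(M_j, d)` are good and the curves `E_{M_j}` are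
pairwise not isomorphic over `k`, and let `ψ(D) → ∞` as slowly as we please. For 100 percent of the `D` of the
class there is a `j < ψ(D)` such that the statement of the problem holds for the fixed curve `E = E_{M_j}` over the
field `K = k(√D)` of degree `2ⁿ⁺¹`: `L(E/K, s)` has a meromorphic continuation to the complex plane, it is
holomorphic at `s = 1`, and for every analytic continuation to a connected open set which contains `1` the order
at `s = 1` is the rank of `E(K)`; both are zero.

The Euler factors at the finitely many places `v ∣ 30 M m` (`m` is the product of the `d_i` and `D`) are arbitrary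
Euler factors of the kind that an elliptic curve has; so the statement does not depend on the computation of the
minimal models there.

The law of large numbers for sequences of twists (`Pool/Agent/Helper382_X15/Law.lean`) is by helper382, the joint
law is in `Pool/Agent/H735X` (helper735), the single curve is the project X15 of helper757.
-/

set_option autoImplicit false

open NumberField IsDedekindDomain Filter Topology

namespace Pool.Agent.Results.MP_32c55d_nt.AlmostAllFieldsX15

open Pool.Agent.Results.MP_50bb2e_nt.MultiquadraticX15 (Cls UpTo InCls Ind RankZeroShaTwo GoodPair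
  IsMultiquadratic qv av c num)
open Pool.Agent.Helper382_X15 (Curve)
open Pool.Agent.Results.MP_78d38b_nt.AllTwistsX15 (NonIso)
open Pool.Agent.Results.MP_ec4e4b_nt.AllTwistsX15 (IsLocal LocalFactors OrderOfVanishingZero)
open Pool.Agent.Helper723_X15 (IsProduct continuation_eq)

open scoped Classical in
/-- The rank conjecture for `E_M` over `K`, with order and rank zero. -/
def RankForm (K : Type) [Field K] [NumberField K] (M m : ℤ) : Prop :=
  (Curve K M).IsElliptic ∧ Finite (Curve K M).toAffine.Point ∧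
  ∀ P : HeightOneSpectrum (𝓞 K) → ℂ → ℂ, LocalFactors K M m P →
    (∃ L : ℂ → ℂ, (∀ z, MeromorphicAt L z) ∧ AnalyticAt ℂ L 1 ∧ IsProduct K P L) ∧
    ∀ (U : Set ℂ) (L : ℂ → ℂ), IsOpen U → IsPreconnected U → (1 : ℂ) ∈ U →
      (∀ s : ℂ, (3 : ℝ) / 2 < s.re → s ∈ U) → AnalyticOnNhd ℂ L U → IsProduct K P L →
      analyticOrderAt L 1 = ((Module.finrank ℤ (Curve K M).toAffine.Point : ℕ) : ℕ∞) ∧
        analyticOrderAt L 1 = 0

/-- the statement over the field `ℚ(√d_1, …, √d_n)`, which has degree `2ⁿ` -/
def Holds {n : ℕ} (M : ℤ) (d : Fin n → ℤ) : Prop :=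
  ∀ (K : Type) [Field K] [NumberField K], IsMultiquadratic d K →
    Module.finrank ℚ K = 2 ^ n ∧ RankForm K M (∏ i, d i)

open scoped Classical in
theorem rankForm {n : ℕ} {d : Fin n → ℤ} {M : ℤ} (hd : Ind d) (h : GoodPair M d) : Holds M d := by
  intro K _ _ hK
  obtain ⟨-, -, -, h4, -⟩ :=
    Pool.Agent.Results.MP_78d38b_nt.AllTwistsX15.shaZero hd h K hK
  obtain ⟨h1, h5, h6, -, -⟩ :=
    Pool.Agent.Results.MP_ec4e4b_nt.AllTwistsX15.formula hd h K hK
  refine ⟨h1, h5, h4, fun P hP => ?_⟩
  obtain ⟨L₀, hm, hp, ha, hne⟩ := h6 P hP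
  refine ⟨⟨L₀, hm, ha, hp⟩, fun U L _ hc h1U hr hL hLp => ?_⟩
  have h7 : analyticOrderAt L 1 = 0 := by
    rw [(hL 1 h1U).analyticOrderAt_eq_zero,
      continuation_eq hc h1U hr hL hm ha fun s hs => (hLp s hs).unique (hp s hs)]
    exact hne
  have h8 : Module.finrank ℤ (Curve K M).toAffine.Point = 0 := by
    have := h4
    rw [Module.finrank_eq_zero_iff]
    intro x
    exact ⟨Nat.card (Curve K M).toAffine.Point, by exact_mod_cast Nat.card_pos.ne', by
      rw [natCast_zsmul]
      exact card_nsmul_eq_zero'⟩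
  exact ⟨by rw [h7, h8, Nat.cast_zero], h7⟩

/-- the proportion of the good `M` -/
theorem prop_one {n : ℕ} {d : Fin n → ℤ} (hd : Ind d) (hc : ∀ i, InCls (d i)) :
    Tendsto (fun X : ℕ => (num (fun M => GoodPair (M : ℤ) d) X : ℝ) / (num (fun _ => True) X : ℝ))
      atTop (𝓝 (c ^ 2 ^ n)) := by
  have h := Pool.Agent.Results.MP_50bb2e_nt.MultiquadraticX15.prop_good (n := n) (M := 1) (d := d) hd
    ⟨1, Pool.Agent.Results.MP_50bb2e_nt.MultiquadraticX15.cls_one, 1, one_ne_zero, by norm_num⟩ hc
  refine h.congr fun X => ?_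
  simp only [one_mul]

/-- **The rank conjecture over 100 percent of the fields `k(√D)`.** -/
theorem result :
    (∀ (n : ℕ) (d : Fin n → ℤ) (M : ℕ → ℤ), Ind d → (∀ j, GoodPair (M j) d) →
      (∀ j j', j ≠ j' → ∀ T : Finset (Fin n), ¬ IsSquare (M j * M j' * ∏ i ∈ T, d i)) →
      ∀ ψ : ℕ → ℕ, Tendsto ψ atTop atTop →
        Tendsto (fun X : ℕ => (num (fun D => ∃ j < ψ D,
          Ind (Fin.snoc d (D : ℤ) : Fin (n + 1) → ℤ) ∧
          Holds (M j) (Fin.snoc d (D : ℤ) : Fin (n + 1) → ℤ)) X : ℝ) /
          (num (fun _ => True) X : ℝ)) atTop (𝓝 1)) ∧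
    (∀ (n : ℕ) (d : Fin n → ℤ), Ind d → (∀ i, InCls (d i)) →
      Tendsto (fun X : ℕ => (num (fun M => GoodPair (M : ℤ) d) X : ℝ) /
        (num (fun _ => True) X : ℝ)) atTop (𝓝 (c ^ 2 ^ n))) ∧
    Tendsto (fun X : ℕ => (num (fun _ => True) X : ℝ) / X) atTop (𝓝 (5 / (16 * Real.pi ^ 2))) ∧
    0.2887 < c ∧ c < 0.2888 := by
  obtain ⟨-, -, -, g2, g3⟩ := Pool.Agent.Results.MP_50bb2e_nt.MultiquadraticX15.result
  refine ⟨fun n d M hd hM hne ψ hψ => ?_, fun n d hd hc => prop_one hd hc,
    Pool.Agent.Helper382_X15.num_dens, g2, g3⟩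
  have h1 := Pool.Agent.Helper382_X15.seq_almost_field hd M hM hne (by linarith) (by linarith) hψ
  refine Pool.Agent.Helper382_X15.almost_mono ∅ (fun D _ _ h => ?_) h1
  obtain ⟨hI, j, hj, hg⟩ := h
  exact ⟨j, hj, hI, rankForm hI hg⟩

end Pool.Agent.Results.MP_32c55d_nt.AlmostAllFieldsX15
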