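import Pool.Agent.HW484.R5

/-!
# A failure of the rank conjecture of Birch and Swinnerton-Dyer propagates

If the conjecture on the rank fails for one elliptic curve `E` over one number field `K` (for instance
`K = ℚ`), then it fails for `E` over infinitely many finite extensions of `K`: over cyclic layers of
every finite Galois extension of `K`, and, for every prime `p`, over extensions of degree `p` or `p ^ 2`
inside cyclotomic extensions of `K` which are linearly disjoint from any given one.
-/

set_option autoImplicit false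

namespace Pool.Agent.Results.MP_32c55d_nt.FailurePropagates

open NumberField IsDedekindDomain
open scoped Classical

/-- `W v` is, for every finite place `v`, an integral model of `E` with discriminant minimal at
`v`. -/
def MinimalModels {K : Type} [Field K] [NumberField K] (E : WeierstrassCurve K)
    (W : HeightOneSpectrum (𝓞 K) → WeierstrassCurve (𝓞 K)) : Prop :=
  ∀ v : HeightOneSpectrum (𝓞 K),
    (∃ C : WeierstrassCurve.VariableChange K, C • (W v).map (algebraMap (𝓞 K) K) = E) ∧
    ∀ W' : WeierstrassCurve (𝓞 K),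
      (∃ C : WeierstrassCurve.VariableChange K, C • W'.map (algebraMap (𝓞 K) K) = E) →
      ∀ n : ℕ, (W v).Δ ∈ v.asIdeal ^ n → W'.Δ ∈ v.asIdeal ^ n

/-- The Euler factor at `v`, `(1 - a_v Nv^{-s} + Nv^{1-2s})⁻¹` if the reduction at `v` is good and
`(1 - a_v Nv^{-s})⁻¹` if it is bad, where `a_v` is `Nv` minus the number of affine points of the
reduction of `W v`. -/
noncomputable def localFactor {K : Type} [Field K] [NumberField K]
    (W : HeightOneSpectrum (𝓞 K) → WeierstrassCurve (𝓞 K)) (v : HeightOneSpectrum (𝓞 K))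
    (s : ℂ) : ℂ :=
  (1 - ((Ideal.absNorm v.asIdeal : ℂ)
        - (Nat.card {xy : (𝓞 K ⧸ v.asIdeal) × (𝓞 K ⧸ v.asIdeal) //
            ((W v).map (Ideal.Quotient.mk v.asIdeal)).toAffine.Equation xy.1 xy.2} : ℂ))
        * (Ideal.absNorm v.asIdeal : ℂ) ^ (-s)
    + (if (W v).Δ ∈ v.asIdeal then 0 else (Ideal.absNorm v.asIdeal : ℂ))
        * (Ideal.absNorm v.asIdeal : ℂ) ^ (-2 * s))⁻¹

/-- The `L`-series, as the Euler product over all finite places. -/
noncomputable def LSeries {K : Type} [Field K] [NumberField K]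
    (W : HeightOneSpectrum (𝓞 K) → WeierstrassCurve (𝓞 K)) (s : ℂ) : ℂ :=
  ∏' v : HeightOneSpectrum (𝓞 K), localFactor W v s

/-- The rank of the group `E(K)`. -/
noncomputable def rank {K : Type} [Field K] (E : WeierstrassCurve K) : ℕ :=
  Module.finrank ℤ E.toAffine.Point

/-- **The rank formula over `K`.**  The group `E(K)` is finitely generated and the `L`-series `L(E, s)`
has a meromorphic continuation to `Ω`, whose order at `s = 1` is the rank of `E(K)`. -/
def RankFormula (K : Type) [Field K] [NumberField K] (E : WeierstrassCurve K) (Ω : Set ℂ) : Prop :=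
  Module.Finite ℤ E.toAffine.Point ∧
  ∀ W : HeightOneSpectrum (𝓞 K) → WeierstrassCurve (𝓞 K), MinimalModels E W →
    ∃ f : ℂ → ℂ, MeromorphicOn f Ω ∧ (∀ s : ℂ, 3 / 2 < s.re → f s = LSeries W s) ∧
      MeromorphicAt f 1 ∧ meromorphicOrderAt f 1 = (rank E : ℤ)

/-- The `n`-th power of `L(E, s)` has a meromorphic continuation to `Ω`, whose order at `s = 1` is
`n` times the rank of `E(K)`. -/
def PowerFormula (n : ℤ) (K : Type) [Field K] [NumberField K] (E : WeierstrassCurve K)
    (Ω : Set ℂ) : Prop :=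
  ∀ W : HeightOneSpectrum (𝓞 K) → WeierstrassCurve (𝓞 K), MinimalModels E W →
    ∃ f : ℂ → ℂ, MeromorphicOn f Ω ∧ (∀ s : ℂ, 3 / 2 < s.re → f s = LSeries W s ^ n) ∧
      MeromorphicAt f 1 ∧ meromorphicOrderAt f 1 = (n * rank E : ℤ)

/-- The set `Ω` is connected and contains `1` and `2`, and `L(E, s)` has a meromorphic continuation to
`Ω`, but the order at `s = 1` is different from the rank of `E(K)`. -/
def WrongOrder {K : Type} [Field K] [NumberField K] (E : WeierstrassCurve K) (Ω : Set ℂ) : Prop :=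
  IsPreconnected Ω ∧ 1 ∈ Ω ∧ 2 ∈ Ω ∧
  ∃ W : HeightOneSpectrum (𝓞 K) → WeierstrassCurve (𝓞 K), MinimalModels E W ∧
    ∃ f : ℂ → ℂ, MeromorphicOn f Ω ∧ (∀ s : ℂ, 3 / 2 < s.re → f s = LSeries W s) ∧
      meromorphicOrderAt f 1 ≠ (rank E : ℤ)

/-- The group `G` has a cyclic normal subgroup `C` such that `G ⧸ C` is an `ℓ`-group. -/
def IsQuasiElementary (ℓ : ℕ) (G : Type) [Group G] : Prop :=
  ∃ C : Subgroup G, ∃ _ : C.Normal, IsCyclic C ∧ IsPGroup ℓ (G ⧸ C)

/-- Every finite Galois extension `M` of `K` has an intermediate field `F` such that `Gal(M / F)` has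
a cyclic normal subgroup whose quotient is an `ℓ`-group and such that the rank formula is false for
`E` over `F`. -/
def FailsInQuasiElementaryLayers {K : Type} [Field K] [NumberField K] (ℓ : ℕ)
    (E : WeierstrassCurve K) (Ω : Set ℂ) : Prop :=
  ∀ (M : Type) [Field M] [NumberField M] [Algebra K M] [IsGalois K M],
    ∃ F : IntermediateField K M, IsQuasiElementary ℓ (M ≃ₐ[F] M) ∧
      ¬ RankFormula F (E.map (algebraMap K F)) Ω

/-- Every finite Galois extension `M` of `K` has an intermediate field `F` such that `Gal(M / F)` is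
cyclic and such that the rank formula is false for `E` over `F`. -/
def FailsInCyclicLayers {K : Type} [Field K] [NumberField K] (E : WeierstrassCurve K)
    (Ω : Set ℂ) : Prop :=
  ∀ (M : Type) [Field M] [NumberField M] [Algebra K M] [IsGalois K M],
    ∃ F : IntermediateField K M, IsCyclic (M ≃ₐ[F] M) ∧
      ¬ RankFormula F (E.map (algebraMap K F)) Ω

/-- `F` is a Galois extension of `K` of degree `p` or `p ^ 2`, with a Galois group of exponent `p`,
which is contained in a cyclotomic extension of `K`. -/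
def IsSmall {K : Type} [Field K] (p : ℕ) (F : IntermediateField K (AlgebraicClosure K)) : Prop :=
  IsGalois K F ∧ (Module.finrank K F = p ∨ Module.finrank K F = p ^ 2) ∧
    (∀ σ : F ≃ₐ[K] F, σ ^ p = 1) ∧
    ∃ (n : ℕ) (ζ : AlgebraicClosure K), 0 < n ∧ ζ ^ n = 1 ∧ F ≤ IntermediateField.adjoin K {ζ}

/-- The rank formula is false for `E` over the extension `F` of `K`. -/
def Fails {K : Type} [Field K] [NumberField K] (E : WeierstrassCurve K) (Ω : Set ℂ)
    (F : IntermediateField K (AlgebraicClosure K)) : Prop :=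
  ∃ _ : NumberField F, ¬ RankFormula F (E.map (algebraMap K F)) Ω

/-- The rank formula is true for all elliptic curves over all number fields of degree greater than
`N`. -/
def HoldsAbove (N : ℕ) (Ω : Set ℂ) : Prop :=
  ∀ (F : Type) [Field F] [NumberField F], N < Module.finrank ℚ F →
    ∀ (E : WeierstrassCurve F) [E.IsElliptic], RankFormula F E Ω

section bridge
variable {K : Type} [Field K] [NumberField K]

lemma localFactor_eq (W : HeightOneSpectrum (𝓞 K) → WeierstrassCurve (𝓞 K))
    (v : HeightOneSpectrum (𝓞 K)) (s : ℂ) :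
    localFactor W v s = (Pool.Agent.HW484.fac W v s)⁻¹ := by
  have h1 : (Nat.card {xy : (𝓞 K ⧸ v.asIdeal) × (𝓞 K ⧸ v.asIdeal) //
          ((W v).map (Ideal.Quotient.mk v.asIdeal)).toAffine.Equation xy.1 xy.2}) =
      Pool.Agent.H341R2.EC.aff (Pool.Agent.HW484.red v (W v)) := by
    unfold Pool.Agent.H341R2.EC.aff Pool.Agent.HW484.red
    refine Nat.card_congr (Equiv.subtypeEquivRight fun q => ?_)
    exact WeierstrassCurve.Affine.equation_iff ..
  unfold localFactor Pool.Agent.HW484.fac Pool.Agent.HW484.trc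
  rw [h1]
  unfold Pool.Agent.H921R2.TatePole.nm
  push_cast
  rfl

lemma LSeries_eq (W : HeightOneSpectrum (𝓞 K) → WeierstrassCurve (𝓞 K)) (s : ℂ) :
    LSeries W s = Pool.Agent.HW484.LS W s :=
  tprod_congr fun v => localFactor_eq W v s

lemma rankFormula_iff (E : WeierstrassCurve K) (Ω : Set ℂ) :
    RankFormula K E Ω ↔ Pool.Agent.HW484.R.RF K E Ω := by
  constructor
  · rintro ⟨h0, h⟩
    refine ⟨h0, fun W hW => ?_⟩
    obtain ⟨f, h1, h2, h3, h4⟩ := h W hW
    exact ⟨f, h1, fun s hs => by rw [h2 s hs, LSeries_eq], h3, h4⟩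
  · rintro ⟨h0, h⟩
    refine ⟨h0, fun W hW => ?_⟩
    obtain ⟨f, h1, h2, h3, h4⟩ := h W hW
    exact ⟨f, h1, fun s hs => by rw [h2 s hs, LSeries_eq], h3, h4⟩

lemma powerFormula_iff (n : ℤ) (E : WeierstrassCurve K) (Ω : Set ℂ) :
    PowerFormula n K E Ω ↔ ∀ W : HeightOneSpectrum (𝓞 K) → WeierstrassCurve (𝓞 K),
      (∀ v, Pool.Agent.HW484.IsMinAt E v (W v)) →
        Pool.Agent.HW484.R.PwR W Ω (Module.finrank ℤ E.toAffine.Point : ℕ) n := by
  constructor
  · intro h W hW
    obtain ⟨f, h1, h2, h3, h4⟩ := h W hW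
    exact ⟨f, h1, fun s hs => by rw [h2 s hs, LSeries_eq], h3, h4⟩
  · intro h W hW
    obtain ⟨f, h1, h2, h3, h4⟩ := h W hW
    exact ⟨f, h1, fun s hs => by rw [h2 s hs, LSeries_eq], h3, h4⟩

end bridge

theorem main (K : Type) [Field K] [NumberField K] (E : WeierstrassCurve K) [hE : E.IsElliptic]
    (Ω : Set ℂ) :
    ∃ d : ℕ, (RankFormula K E Ω ↔ Module.Finite ℤ E.toAffine.Point ∧ d = 1) ∧
      (∀ n : ℤ, PowerFormula n K E Ω ↔ (d : ℤ) ∣ n) ∧
      (WrongOrder E Ω → d = 0) ∧
      (∀ ℓ : ℕ, ℓ.Prime → ℓ ∣ d → FailsInQuasiElementaryLayers ℓ E Ω) ∧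
      (d = 0 → FailsInCyclicLayers E Ω) ∧
      ∀ p : ℕ, p.Prime → (∀ k : ℕ, d ≠ p ^ k) →
        ∀ B : IntermediateField K (AlgebraicClosure K), FiniteDimensional K B →
          ∃ F : IntermediateField K (AlgebraicClosure K), F ⊓ B = ⊥ ∧ IsSmall p F ∧
            Fails E Ω F := by
  have hex : ∃ W : HeightOneSpectrum (𝓞 K) → WeierstrassCurve (𝓞 K),
      ∀ v, Pool.Agent.HW484.IsMinAt E v (W v) := by
    choose W hW using fun v => Pool.Agent.HW484.exists_min E hE v
    exact ⟨W, hW⟩
  obtain ⟨W, hW⟩ := hex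
  obtain ⟨d, hd⟩ := Pool.Agent.HW484.R.exists_exponentR hE hW Ω
    (Module.finrank ℤ E.toAffine.Point : ℕ)
  have hP : ∀ n : ℤ, PowerFormula n K E Ω ↔ (d : ℤ) ∣ n := by
    intro n
    rw [powerFormula_iff, ← hd]
    exact ⟨fun h => h W hW, fun h W' hW' => Pool.Agent.HW484.R.pwR_indep hE hW hW' h⟩
  have hC : RankFormula K E Ω ↔ Module.Finite ℤ E.toAffine.Point ∧ d = 1 := by
    have h1 : RankFormula K E Ω ↔ Module.Finite ℤ E.toAffine.Point ∧ PowerFormula 1 K E Ω := by
      constructor
      · rintro ⟨h0, h⟩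
        refine ⟨h0, fun W hW => ?_⟩
        obtain ⟨f, h1, h2, h3, h4⟩ := h W hW
        exact ⟨f, h1, fun s hs => by rw [h2 s hs, zpow_one], h3, by rw [h4, one_mul]⟩
      · rintro ⟨h0, h⟩
        refine ⟨h0, fun W hW => ?_⟩
        obtain ⟨f, h1, h2, h3, h4⟩ := h W hW
        exact ⟨f, h1, fun s hs => by rw [h2 s hs, zpow_one], h3, by rw [h4, one_mul]⟩
    rw [h1, hP 1]
    refine and_congr_right fun _ => ?_
    constructor
    · intro h
      exact_mod_cast Int.eq_one_of_dvd_one (by positivity) h
    · rintro rfl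
      exact dvd_rfl
  refine ⟨d, hC, hP, ?_, ?_, ?_, ?_⟩
  · rintro ⟨hΩ, hm1, hm2, W', hW', f, h1, h2, h3⟩
    by_contra hd0
    have hd0' : (d : ℤ) ≠ 0 := by exact_mod_cast hd0
    have h4 := Pool.Agent.HW484.R.pwR_indep hE hW hW' ((hd d).2 dvd_rfl)
    exact h3 (Pool.Agent.HW484.R.wrong_order hΩ hm1 hm2 h1
      (fun s hs => by rw [h2 s hs, LSeries_eq]) hd0' h4)
  · intro ℓ hℓ hdvd M _ _ _ _
    have hD : ∀ n : ℤ, Pool.Agent.HW484.R.PwR W Ω (Module.finrank ℤ E.toAffine.Point : ℕ) n →
        (ℓ : ℤ) ∣ n := fun n hn => (Int.natCast_dvd_natCast.2 hdvd).trans ((hd n).1 hn)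
    obtain ⟨F, h1, h2⟩ := Pool.Agent.HW484.R.layersR hE hW hℓ hD M
    exact ⟨F, h1, fun h => h2 ((rankFormula_iff _ _).1 h)⟩
  · intro h0 M _ _ _ _
    have hD : ∀ n : ℤ, n ≠ 0 →
        ¬ Pool.Agent.HW484.R.PwR W Ω (Module.finrank ℤ E.toAffine.Point : ℕ) n := by
      intro n hn h
      rw [hd n, h0] at h
      exact hn (zero_dvd_iff.1 h)
    obtain ⟨F, h1, h2⟩ := Pool.Agent.HW484.R.cyclic_layersR hE hW hD M
    exact ⟨F, h1, fun h => h2 ((rankFormula_iff _ _).1 h)⟩
  · intro p hp hk B hB
    obtain ⟨ℓ, hℓ, hne, hdvd⟩ := Pool.Agent.HW484.exists_other hp hk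
    have hD : ∀ n : ℤ, Pool.Agent.HW484.R.PwR W Ω (Module.finrank ℤ E.toAffine.Point : ℕ) n →
        (ℓ : ℤ) ∣ n := fun n hn => (Int.natCast_dvd_natCast.2 hdvd).trans ((hd n).1 hn)
    obtain ⟨F, h1, h2, h3, h4, h5, hn, h6⟩ :=
      Pool.Agent.HW484.R.disjoint_extR hE hW hℓ hD hp hne B
    exact ⟨F, h1, ⟨h2, h3, h4, h5⟩, hn, fun h => h6 ((rankFormula_iff _ _).1 h)⟩

lemma large_degree {K : Type} [Field K] [NumberField K] {N p : ℕ} (hpN : N < p) {m : ℕ}
    (h : p ≤ m) : N < Module.finrank ℚ K * m := by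
  have h7 : 0 < Module.finrank ℚ K := Module.finrank_pos
  calc N < p := hpN
    _ ≤ m := h
    _ ≤ Module.finrank ℚ K * m := Nat.le_mul_of_pos_left _ h7

theorem large (N : ℕ) (Ω : Set ℂ) (h : HoldsAbove N Ω)
    (K : Type) [Field K] [NumberField K] (E : WeierstrassCurve K) [hE : E.IsElliptic] :
    RankFormula K E Ω := by
  have hfg : Module.Finite ℤ E.toAffine.Point := by
    obtain ⟨p, hp1, hp2⟩ := Nat.exists_infinite_primes (N + 1)
    obtain ⟨M, hM1, hM2, hM3, hM4, hM5, -⟩ := Pool.Agent.HW484.exists_ext K hp2 ⊥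
    have hnM : NumberField M := NumberField.of_module_finite K M
    have h6 : Module.finrank ℚ K * Module.finrank K M = Module.finrank ℚ M :=
      Module.finrank_mul_finrank ℚ K M
    have h8 : p ≤ Module.finrank K M := by
      rw [← IsGalois.card_aut_eq_finrank, hM3]
      exact Nat.le_self_pow (by norm_num) p
    have h9 : N < Module.finrank ℚ M := by
      rw [← h6]
      exact large_degree (by omega) h8
    exact Pool.Agent.HW484.R.finite_down E M (h M h9 (E.map (algebraMap K M))).1
  obtain ⟨d, h1, -, -, -, -, h2⟩ := main K E Ω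
  by_contra hcon
  have hd1 : d ≠ 1 := fun h => hcon (h1.2 ⟨hfg, h⟩)
  obtain ⟨p, hp1, hp2⟩ := Nat.exists_infinite_primes (max N d + 1)
  have hpN : N < p := by omega
  have hk : ∀ k : ℕ, d ≠ p ^ k := by
    intro k hk
    rcases Nat.eq_zero_or_pos k with h0 | h0
    · rw [h0, pow_zero] at hk
      exact hd1 hk
    · have : p ≤ p ^ k := Nat.le_self_pow h0.ne' p
      omega
  obtain ⟨F, -, ⟨h3, h4, -, -⟩, hn, h5⟩ := h2 p hp2 hk ⊥ inferInstance
  refine h5 (h F ?_ (E.map (algebraMap K F)))
  have h6 : Module.finrank ℚ K * Module.finrank K F = Module.finrank ℚ F :=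
    Module.finrank_mul_finrank ℚ K F
  have h8 : p ≤ Module.finrank K F := by
    rcases h4 with h4 | h4
    · exact h4.ge
    · rw [h4]
      exact Nat.le_self_pow (by norm_num) p
  rw [← h6]
  exact large_degree hpN h8

/-- **A failure of the rank conjecture propagates.**  Let `E` be an elliptic curve over a number field
`K` and let `Ω` be a set of complex numbers, for instance the plane (the theorem of Mordell and Weil is
neither assumed nor used).  The rank formula for `E` over `F` says that `E(F)` is finitely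
generated and that `L(E, s)` over `F` has a meromorphic continuation to `Ω` whose order at `s = 1` is
the rank of `E(F)`.  There is a number `d ≥ 0` such that `L(E, s) ^ n` has a meromorphic continuation
to `Ω` whose order at `s = 1` is `n` times the rank of `E(K)` exactly for the multiples `n` of `d`; and
the rank formula is true for `E` over `K` exactly if `E(K)` is finitely generated and `d = 1`.
Moreover the following is true.

* If `L(E, s)` has a meromorphic continuation to the connected set `Ω`, `1, 2 ∈ Ω`, but with an order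
at `s = 1` different from the rank of `E(K)`, then `d = 0`.
* For every prime divisor `ℓ` of `d`, every finite Galois extension `M` of `K` has an intermediate
field `F` such that `Gal(M / F)` has a cyclic normal subgroup whose quotient is an `ℓ`-group and such
that the rank formula is false for `E` over `F`.
* If `d = 0`, then every finite Galois extension `M` of `K` has an intermediate field `F` such that
`Gal(M / F)` is cyclic and such that the rank formula is false for `E` over `F`.
* For every prime number `p`, except if `d` is a power of `p`, and for every finite extension `B` of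
`K` there is a Galois extension `F` of `K` with `F ∩ B = K` whose Galois group has order `p` or `p ^ 2`
and exponent `p`, which is contained in a cyclotomic extension of `K`, and over which the rank formula
is false for `E`.

In particular (last clause): if the rank formula is true for all elliptic curves over all number fields
of degree greater than some `N`, then it is true for all elliptic curves over all number fields. -/
theorem result :
    (∀ (K : Type) [Field K] [NumberField K] (E : WeierstrassCurve K) [E.IsElliptic] (Ω : Set ℂ),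
      ∃ d : ℕ, (RankFormula K E Ω ↔ Module.Finite ℤ E.toAffine.Point ∧ d = 1) ∧
        (∀ n : ℤ, PowerFormula n K E Ω ↔ (d : ℤ) ∣ n) ∧
        (WrongOrder E Ω → d = 0) ∧
        (∀ ℓ : ℕ, ℓ.Prime → ℓ ∣ d → FailsInQuasiElementaryLayers ℓ E Ω) ∧
        (d = 0 → FailsInCyclicLayers E Ω) ∧
        ∀ p : ℕ, p.Prime → (∀ k : ℕ, d ≠ p ^ k) →
          ∀ B : IntermediateField K (AlgebraicClosure K), FiniteDimensional K B →
            ∃ F : IntermediateField K (AlgebraicClosure K), F ⊓ B = ⊥ ∧ IsSmall p F ∧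
              Fails E Ω F) ∧
    ∀ (N : ℕ) (Ω : Set ℂ), HoldsAbove N Ω →
      ∀ (K : Type) [Field K] [NumberField K] (E : WeierstrassCurve K) [E.IsElliptic],
        RankFormula K E Ω :=
  ⟨fun K _ _ E _ Ω => main K E Ω, fun N Ω h K _ _ E _ => large N Ω h K E⟩

end Pool.Agent.Results.MP_32c55d_nt.FailurePropagates
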